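import Pool.Agent.H58_bda8f3.Final

set_option autoImplicit false

namespace Pool.Agent.Results.MP_bda8f3_al.FittingLinearBound

open Pool.Agent.H58_bda8f3

/-- Let `O = O_p(G)` and let `m` be the number of distinct dimensions of simple `k[G]`-modules.
Every nilpotent normal subgroup of `G / O_p(G)`, in particular its Fitting subgroup, has derived
length at most `2 m - 1`. -/
theorem result :
    ∀ (p : ℕ) [Fact p.Prime] (G : Type) [Group G] [Finite G] (k : Type) [Field k]
      [IsAlgClosed k] [CharP k p] (O : Subgroup G) [O.Normal],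
      IsPGroup p O → (∀ Q : Subgroup G, Q.Normal → IsPGroup p Q → Q ≤ O) →
      (simpleDims k G).Finite ∧ 1 ≤ (simpleDims k G).ncard ∧
        ∀ (N : Subgroup (G ⧸ O)), N.Normal → Group.IsNilpotent N →
          derivedSeries N (2 * (simpleDims k G).ncard - 1) = ⊥ := by
  intro p _ G _ _ k _ _ _ O _ hO hmax
  refine ⟨simpleDims_finite, ?_, ?_⟩
  · rw [Nat.one_le_iff_ne_zero, Ne, Set.ncard_eq_zero simpleDims_finite]
    exact Set.Nonempty.ne_empty ⟨1, one_mem_simpleDims⟩
  · intro N hN hnil
    exact main p G k O hO hmax N hnil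

end Pool.Agent.Results.MP_bda8f3_al.FittingLinearBound
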