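import Pool.Agent.W_bda8t_h78.Fin

set_option autoImplicit false

namespace Pool.Agent.Results.MP_bda8f3_al.FittingScales

open Pool.Agent.H58_bda8f3 Pool.Agent.W_bda8t_h78

theorem result :
    (∀ (p : ℕ) [Fact p.Prime] (G : Type) [Group G] [Finite G] (k : Type) [Field k]
      [IsAlgClosed k] [CharP k p] (O : Subgroup G) [O.Normal],
      IsPGroup p O → (∀ Q : Subgroup G, Q.Normal → IsPGroup p Q → Q ≤ O) →
      ∀ (N : Subgroup (G ⧸ O)) [N.Normal], Group.IsNilpotent N →
        derivedSeries N (windows k G + 5 * gaps k G + 1) = ⊥) ∧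
    (∀ (k : Type) [Field k] [IsAlgClosed k] (G : Type) [Group G] [Finite G] (N : Subgroup G)
      [N.Normal], Group.IsNilpotent N → (Nat.card N : k) ≠ 0 →
        derivedSeries N (windows k G + 5 * gaps k G + 1) = ⊥) ∧
    (∀ (k : Type) [Field k] (G : Type) [Group G] [Finite G], gaps k G ≤ windows k G) := by
  refine ⟨?_, ?_, ?_⟩
  · intro p _ G _ _ k _ _ _ O _ hO hOmax N _ hnil
    exact scales_fitting p G k O hO hOmax N hnil
  · intro k _ _ G _ _ N _ hnil hN
    exact scales_normal N hnil hN
  · intro k _ G _ _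
    exact gaps_le_windows

end Pool.Agent.Results.MP_bda8f3_al.FittingScales
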